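import Pool.Agent.H52.O4.Spec

/-!
# Order four: the window of rows as a state, by computation
-/

set_option autoImplicit false

open Polynomial

namespace Pool.Agent.H37.O4

open Pool.Agent.H73.TP (opA opA_X_mul opA_add opA_C_mul)
open Pool.Agent.H52.O4

/-! ### The operator `A` on `t^a f^(k)` -/

theorem opA_form (N y : ℝ) (g : ℝ[X]) : opA (N + 1) ((1 + C y * X) * g)
    = (1 + C y * X) * opA N g + C (1 + y) * (X * g) := by
  unfold opA
  simp only [derivative_mul, derivative_add, derivative_one, derivative_C, derivative_X, map_add,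
    map_one]
  ring

theorem opA_fk0 : ∀ (F : List ℝ) (q : ℝ) (k : ℕ), opA (F.length + q) (fk F k)
    = fk F k + C (q + k) * (X * fk F k) + C ((k : ℝ) + 1) * (X * fk F (k + 1))
  | [], q, 0 => by
    unfold opA
    simp only [fk, List.length_nil, Nat.cast_zero, zero_add, derivative_one, add_zero]
    ring
  | [], q, k + 1 => by
    unfold opA
    simp only [fk, derivative_zero]
    ring
  | y :: F, q, 0 => by
    have e : (((y :: F).length : ℕ) : ℝ) + q = (F.length + q) + 1 := by
      push_cast [List.length_cons]; ring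
    rw [e]
    simp only [fk]
    rw [opA_form, opA_fk0 F q 0]
    simp only [map_add, map_one, Nat.cast_zero, map_zero]
    ring
  | y :: F, q, k + 1 => by
    have e : (((y :: F).length : ℕ) : ℝ) + q = (F.length + q) + 1 := by
      push_cast [List.length_cons]; ring
    have e2 : ((F.length : ℝ) + q) + 1 = F.length + (q + 1) := by ring
    rw [e]
    simp only [fk]
    rw [opA_add, opA_form, opA_fk0 F q (k + 1), opA_C_mul, e2, opA_fk0 F (q + 1) k]
    simp only [map_add, map_one, Nat.cast_add, Nat.cast_one, map_natCast]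
    ring

theorem opA_fk (F : List ℝ) (k : ℕ) : ∀ (a : ℕ) (q : ℝ), opA (F.length + q) (X ^ a * fk F k)
    = C (1 + (a : ℝ)) * (X ^ a * fk F k) + C (q + k - a) * (X ^ (a + 1) * fk F k)
      + C ((k : ℝ) + 1) * (X ^ (a + 1) * fk F (k + 1))
  | 0, q => by
    simp only [pow_zero, one_mul, opA_fk0, Nat.cast_zero, add_zero, sub_zero, map_one, zero_add,
      pow_one]
  | a + 1, q => by
    have e : X ^ (a + 1) * fk F k = X * (X ^ a * fk F k) := by ring
    have e2 : (F.length : ℝ) + q - 1 = F.length + (q - 1) := by ring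
    rw [e, opA_X_mul, e2, opA_fk F k a (q - 1)]
    simp only [map_add, map_one, map_sub, map_natCast, Nat.cast_add, Nat.cast_one]
    ring

/-! ### Polynomials in `p, u` with integer coefficients -/

/-- Sum of polynomials in one variable. -/
def add1 : List ℤ → List ℤ → List ℤ
  | [], b => b
  | a :: s, [] => a :: s
  | a :: s, b :: t => (a + b) :: add1 s t

/-- Integer multiple. -/
def smul1 (c : ℤ) : List ℤ → List ℤ
  | [] => []
  | a :: s => (c * a) :: smul1 c s

/-- Product of polynomials in one variable. -/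
def mul1 : List ℤ → List ℤ → List ℤ
  | [], _ => []
  | a :: s, b => add1 (smul1 a b) (0 :: mul1 s b)

/-- Sum of polynomials in two variables. -/
def add2 : List (List ℤ) → List (List ℤ) → List (List ℤ)
  | [], b => b
  | a :: s, [] => a :: s
  | a :: s, b :: t => add1 a b :: add2 s t

/-- Integer multiple. -/
def smul2 (c : ℤ) : List (List ℤ) → List (List ℤ)
  | [] => []
  | a :: s => smul1 c a :: smul2 c s

/-- Multiple by a polynomial in the inner variable. -/
def mulr (c : List ℤ) : List (List ℤ) → List (List ℤ)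
  | [] => []
  | a :: s => mul1 c a :: mulr c s

/-- Product of polynomials in two variables. -/
def mul2 : List (List ℤ) → List (List ℤ) → List (List ℤ)
  | [], _ => []
  | a :: s, b => add2 (mulr a b) ([] :: mul2 s b)

/-- Value of a polynomial in one variable. -/
noncomputable def ev1 (u : ℝ) : List ℤ → ℝ
  | [] => 0
  | a :: s => a + u * ev1 u s

/-- Value of a polynomial in two variables. -/
noncomputable def ev2 (p u : ℝ) : List (List ℤ) → ℝ
  | [] => 0
  | a :: s => ev1 u a + p * ev2 p u s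

theorem ev1_add (u : ℝ) : ∀ a b : List ℤ, ev1 u (add1 a b) = ev1 u a + ev1 u b
  | [], b => by simp [add1, ev1]
  | a :: s, [] => by simp [add1, ev1]
  | a :: s, b :: t => by simp only [add1, ev1, ev1_add u s t]; push_cast; ring

theorem ev1_smul (u : ℝ) (c : ℤ) : ∀ a : List ℤ, ev1 u (smul1 c a) = c * ev1 u a
  | [] => by simp [smul1, ev1]
  | a :: s => by simp only [smul1, ev1, ev1_smul u c s]; push_cast; ring

theorem ev1_mul (u : ℝ) : ∀ a b : List ℤ, ev1 u (mul1 a b) = ev1 u a * ev1 u b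
  | [], b => by simp [mul1, ev1]
  | a :: s, b => by
    simp only [mul1, ev1, ev1_add, ev1_smul, ev1_mul u s b]; push_cast; ring

theorem ev2_add (p u : ℝ) : ∀ a b : List (List ℤ), ev2 p u (add2 a b) = ev2 p u a + ev2 p u b
  | [], b => by simp [add2, ev2]
  | a :: s, [] => by simp [add2, ev2]
  | a :: s, b :: t => by simp only [add2, ev2, ev2_add p u s t, ev1_add]; ring

theorem ev2_smul (p u : ℝ) (c : ℤ) : ∀ a : List (List ℤ), ev2 p u (smul2 c a) = c * ev2 p u a
  | [] => by simp [smul2, ev2]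
  | a :: s => by simp only [smul2, ev2, ev2_smul p u c s, ev1_smul]; ring

theorem ev2_mulr (p u : ℝ) (c : List ℤ) : ∀ a : List (List ℤ),
    ev2 p u (mulr c a) = ev1 u c * ev2 p u a
  | [] => by simp [mulr, ev2]
  | a :: s => by simp only [mulr, ev2, ev2_mulr p u c s, ev1_mul]; ring

theorem ev2_mul (p u : ℝ) : ∀ a b : List (List ℤ), ev2 p u (mul2 a b) = ev2 p u a * ev2 p u b
  | [], b => by simp [mul2, ev2]
  | a :: s, b => by
    simp only [mul2, ev2, ev2_add, ev2_mulr, ev2_mul p u s b, ev1]; ring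

/-- All coefficients are `0`. -/
def zz1 : List ℤ → Bool
  | [] => true
  | a :: s => (decide (a = 0)) && zz1 s

/-- All coefficients are `0`. -/
def zz2 : List (List ℤ) → Bool
  | [] => true
  | a :: s => zz1 a && zz2 s

theorem ev1_zz {u : ℝ} : ∀ a : List ℤ, zz1 a = true → ev1 u a = 0
  | [], _ => rfl
  | a :: s, h => by
    simp only [zz1, Bool.and_eq_true, decide_eq_true_eq] at h
    simp only [ev1, h.1, ev1_zz s h.2]
    simp

theorem ev2_zz {p u : ℝ} : ∀ a : List (List ℤ), zz2 a = true → ev2 p u a = 0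
  | [], _ => rfl
  | a :: s, h => by
    simp only [zz2, Bool.and_eq_true] at h
    simp only [ev2, ev1_zz a h.1, ev2_zz s h.2]
    simp

/-- `x u^j`. -/
def mon1 (x : ℤ) : ℕ → List ℤ
  | 0 => [x]
  | j + 1 => 0 :: mon1 x j

/-- `x p^i u^j`. -/
def mon2 (x : ℤ) (j : ℕ) : ℕ → List (List ℤ)
  | 0 => [mon1 x j]
  | i + 1 => [] :: mon2 x j i

theorem ev1_mon (u : ℝ) (x : ℤ) : ∀ j, ev1 u (mon1 x j) = x * u ^ j
  | 0 => by simp [mon1, ev1]
  | j + 1 => by simp only [mon1, ev1, ev1_mon u x j]; push_cast; ring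

theorem ev2_mon (p u : ℝ) (x : ℤ) (j : ℕ) : ∀ i, ev2 p u (mon2 x j i) = x * (p ^ i * u ^ j)
  | 0 => by simp [mon2, ev2, ev1_mon]
  | i + 1 => by simp only [mon2, ev2, ev2_mon p u x j i, ev1]; ring

/-- Conversion of a coefficient list. -/
def cvt : ℕ → ℕ → List ℤ → List (List ℤ)
  | _, _, [] => []
  | i, j, x :: v => add2 (mon2 x j i) (if j = 0 then cvt 0 (i + 1) v else cvt (i + 1) (j - 1) v)

theorem cvt_ok (p u : ℝ) : ∀ (v : List ℤ) (i j : ℕ), ev2 p u (cvt i j v) = evAux p u i j v
  | [], i, j => rfl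
  | x :: v, i, j => by
    simp only [cvt, evAux, ev2_add, ev2_mon]
    split_ifs with h
    · rw [cvt_ok p u v 0 (i + 1)]
    · rw [cvt_ok p u v (i + 1) (j - 1)]

/-! ### Rows -/

/-- Value of a row. -/
noncomputable def rv (p u : ℝ) (F : List ℝ) : List (List (List ℤ) × ℕ) → ℝ[X]
  | [] => 0
  | (c, n) :: ρ => C (ev2 p u c) * rw0 [] F n + rv p u F ρ

/-- The next row. -/
def rstep (i : ℕ) : List (List (List ℤ) × ℕ) → List (List (List ℤ) × ℕ)
  | [] => []
  | (c, n) :: ρ => (smul2 (1 + (n / 8 : ℕ)) c, n) ::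
      (mul2 [[1 + i + ((n % 8 : ℕ) : ℤ) - (n / 8 : ℕ), 1 + i], [1]] c, n + 8) ::
      (smul2 ((n % 8 : ℕ) + 1) c, n + 9) :: rstep i ρ

/-- The codes are not too large. -/
def okR : List (List (List ℤ) × ℕ) → Bool
  | [] => true
  | (_, n) :: ρ => decide (n % 8 < 7) && okR ρ

theorem rw0_nil (F : List ℝ) (n : ℕ) : rw0 [] F n = X ^ (n / 8) * fk F (n % 8) := by
  simp only [rw0, gp, one_mul]

theorem rstep_ok (p u : ℝ) (F : List ℝ) (i : ℕ) : ∀ ρ, okR ρ = true →
    opA (F.length + (1 + u + p) + i * (1 + u)) (rv p u F ρ) = rv p u F (rstep i ρ)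
  | [], _ => by simp [rstep, rv, opA]
  | (c, n) :: ρ, h => by
    simp only [okR, Bool.and_eq_true, decide_eq_true_eq] at h
    have ih := rstep_ok p u F i ρ h.2
    have e : (F.length : ℝ) + (1 + u + p) + i * (1 + u)
        = F.length + ((1 + u + p) + i * (1 + u)) := by ring
    have h8 : (n + 8) / 8 = n / 8 + 1 := by omega
    have h8' : (n + 8) % 8 = n % 8 := by omega
    have h9 : (n + 9) / 8 = n / 8 + 1 := by omega
    have h9' : (n + 9) % 8 = n % 8 + 1 := by omega
    simp only [rv, rstep, opA_add, opA_C_mul, ih, ev2_smul, ev2_mul, rw0_nil, h8, h8', h9, h9']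
    rw [e, opA_fk]
    simp only [ev2, ev1]
    generalize n / 8 = a
    generalize n % 8 = k
    push_cast
    simp only [map_add, map_mul, map_one, map_sub, map_natCast, map_zero]
    ring

/-- First row. -/
def r0 : List (List (List ℤ) × ℕ) := [([[1]], 0)]

/-- Second row. -/
def r1 : List (List (List ℤ) × ℕ) := rstep 0 r0

/-- Merge a row (drop zeros, add equal codes). -/
def addR (c : List (List ℤ)) (n : ℕ) : List (List (List ℤ) × ℕ) → List (List (List ℤ) × ℕ)
  | [] => [(c, n)]
  | (c', n') :: ρ => if n = n' then (add2 c c', n') :: ρ else (c', n') :: addR c n ρ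

/-- Merge a row. -/
def nfR : List (List (List ℤ) × ℕ) → List (List (List ℤ) × ℕ)
  | [] => []
  | (c, n) :: ρ => if zz2 c = true then nfR ρ else addR c n (nfR ρ)

theorem addR_ok (p u : ℝ) (F : List ℝ) (c : List (List ℤ)) (n : ℕ) : ∀ ρ,
    rv p u F (addR c n ρ) = C (ev2 p u c) * rw0 [] F n + rv p u F ρ
  | [] => by simp [addR, rv]
  | (c', n') :: ρ => by
    simp only [addR]
    split_ifs with h
    · subst h; simp only [rv, ev2_add, map_add]; ring
    · simp only [rv, addR_ok p u F c n ρ]; ring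

theorem nfR_ok (p u : ℝ) (F : List ℝ) : ∀ ρ, rv p u F (nfR ρ) = rv p u F ρ
  | [] => rfl
  | (c, n) :: ρ => by
    simp only [nfR]
    split_ifs with h
    · simp only [rv, ev2_zz c h, nfR_ok p u F ρ]; simp
    · simp only [rv, addR_ok, nfR_ok p u F ρ]

/-- Third row. -/
def r2 : List (List (List ℤ) × ℕ) := nfR (rstep 1 (nfR r1))

/-- Fourth row. -/
def r3 : List (List (List ℤ) × ℕ) := nfR (rstep 2 r2)

theorem okR0 : okR r0 = true := by decide +kernel
theorem okR1 : okR (nfR r1) = true := by decide +kernel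
theorem okR2 : okR r2 = true := by decide +kernel

theorem row0 (p u : ℝ) (F : List ℝ) : rwi F (1 + u + p) (1 + u) 0 = rv p u F r0 := by
  simp [rwi, rv, r0, rw0_nil, ev2, ev1]

theorem row1 (p u : ℝ) (F : List ℝ) : rwi F (1 + u + p) (1 + u) 1 = rv p u F (nfR r1) := by
  rw [nfR_ok, r1, ← rstep_ok p u F 0 r0 okR0, ← row0]
  rfl

theorem row2 (p u : ℝ) (F : List ℝ) : rwi F (1 + u + p) (1 + u) 2 = rv p u F r2 := by
  rw [r2, nfR_ok, ← rstep_ok p u F 1 _ okR1, ← row1]
  rfl

theorem row3 (p u : ℝ) (F : List ℝ) : rwi F (1 + u + p) (1 + u) 3 = rv p u F r3 := by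
  rw [r3, nfR_ok, ← rstep_ok p u F 2 _ okR2, ← row2]
  rfl

end Pool.Agent.H37.O4
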