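import Pool.Agent.H37.O4.RowC

/-!
# Order four: the window of rows as a state, by computation (determinants)
-/

set_option autoImplicit false

open Polynomial

namespace Pool.Agent.H37.O4

open Pool.Agent.H52.O4

/-- Determinant of the coefficients of the first `m` polynomials of a list. -/
noncomputable def Dm (κ m : ℕ) (L : List ℝ[X]) : ℝ :=
  Matrix.det (Matrix.of fun i j : Fin m => (L.getD i 0).coeff (κ + j))

theorem getD_ne (P Q : List ℝ[X]) (f g : ℝ[X]) (i : ℕ) (hi : i ≠ P.length) :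
    (P ++ f :: Q).getD i 0 = (P ++ g :: Q).getD i 0 := by
  rcases Nat.lt_or_ge i P.length with h | h
  · rw [List.getD_append _ _ _ _ h, List.getD_append _ _ _ _ h]
  · rw [List.getD_append_right _ _ _ _ h, List.getD_append_right _ _ _ _ h]
    obtain ⟨k, hk⟩ : ∃ k, i - P.length = k + 1 := ⟨i - P.length - 1, by omega⟩
    rw [hk, List.getD_cons_succ, List.getD_cons_succ]

theorem getD_eq (P Q : List ℝ[X]) (f : ℝ[X]) : (P ++ f :: Q).getD P.length 0 = f := by
  rw [List.getD_append_right _ _ _ _ le_rfl, Nat.sub_self, List.getD_cons_zero]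

theorem Dm_key (κ m : ℕ) (P Q : List ℝ[X]) (h : P.length < m) (f : ℝ[X]) :
    Dm κ m (P ++ f :: Q) = Matrix.det (Matrix.updateRow
      (Matrix.of fun i j : Fin m => ((P ++ 0 :: Q).getD i 0).coeff (κ + j)) ⟨P.length, h⟩
      (fun j => f.coeff (κ + j))) := by
  unfold Dm
  congr 1
  ext i j
  by_cases hi : i = ⟨P.length, h⟩
  · subst hi
    rw [Matrix.updateRow_self, Matrix.of_apply]
    simp only [getD_eq]
  · rw [Matrix.updateRow_ne hi, Matrix.of_apply, Matrix.of_apply]
    rw [getD_ne P Q f 0 i (fun hh => hi (Fin.ext hh))]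

theorem Dm_add (κ m : ℕ) (P Q : List ℝ[X]) (h : P.length < m) (f g : ℝ[X]) :
    Dm κ m (P ++ (f + g) :: Q) = Dm κ m (P ++ f :: Q) + Dm κ m (P ++ g :: Q) := by
  rw [Dm_key κ m P Q h, Dm_key κ m P Q h f, Dm_key κ m P Q h g, ← Matrix.det_updateRow_add]
  congr 1

theorem Dm_smul (κ m : ℕ) (P Q : List ℝ[X]) (h : P.length < m) (c : ℝ) (f : ℝ[X]) :
    Dm κ m (P ++ (C c * f) :: Q) = c * Dm κ m (P ++ f :: Q) := by
  rw [Dm_key κ m P Q h, Dm_key κ m P Q h f, ← Matrix.det_updateRow_smul]
  congr 2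
  funext j
  simp [coeff_C_mul]

theorem Dm_zero (κ m : ℕ) (P Q : List ℝ[X]) (h : P.length < m) :
    Dm κ m (P ++ 0 :: Q) = 0 := by
  have := Dm_smul κ m P Q h 0 0
  simpa using this

/-! ### Products -/

/-- Value of a state with coefficients `List (List ℤ)`. -/
noncomputable def sem2 (p u : ℝ) (ℓ : List ℕ → ℝ) : List (List (List ℤ) × List ℕ) → ℝ
  | [] => 0
  | (c, t) :: S => ev2 p u c * ℓ t + sem2 p u ℓ S

theorem sem2_append (p u : ℝ) (ℓ : List ℕ → ℝ) : ∀ S T,
    sem2 p u ℓ (S ++ T) = sem2 p u ℓ S + sem2 p u ℓ T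
  | [], T => by simp [sem2]
  | (c, t) :: S, T => by simp only [List.cons_append, sem2, sem2_append p u ℓ S T]; ring

/-- Prefix one term of a row. -/
def ppre (c : List (List ℤ)) (n : ℕ) : List (List (List ℤ) × List ℕ) →
    List (List (List ℤ) × List ℕ)
  | [] => []
  | (d, t) :: S => (mul2 c d, n :: t) :: ppre c n S

theorem sem2_ppre (p u : ℝ) (ℓ : List ℕ → ℝ) (c : List (List ℤ)) (n : ℕ) : ∀ S,
    sem2 p u ℓ (ppre c n S) = ev2 p u c * sem2 p u (fun t => ℓ (n :: t)) S
  | [] => by simp [ppre, sem2]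
  | (d, t) :: S => by simp only [ppre, sem2, sem2_ppre p u ℓ c n S, ev2_mul]; ring

/-- Row times state. -/
def pmul : List (List (List ℤ) × ℕ) → List (List (List ℤ) × List ℕ) →
    List (List (List ℤ) × List ℕ)
  | [], _ => []
  | (c, n) :: ρ, S => ppre c n S ++ pmul ρ S

/-- Product of rows. -/
def pd : List (List (List (List ℤ) × ℕ)) → List (List (List ℤ) × List ℕ)
  | [] => [([[1]], [])]
  | ρ :: L => pmul ρ (pd L)

theorem Dm_pmul (p u : ℝ) (F : List ℝ) (κ m : ℕ) (P Q : List ℝ[X]) (hP : P.length < m)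
    (S : List (List (List ℤ) × List ℕ))
    (hS : ∀ n : ℕ, Dm κ m (P ++ rw0 [] F n :: Q)
      = sem2 p u (fun t => Dm κ m (P ++ (n :: t).map (rw0 [] F))) S) : ∀ ρ,
    Dm κ m (P ++ rv p u F ρ :: Q)
      = sem2 p u (fun t => Dm κ m (P ++ t.map (rw0 [] F))) (pmul ρ S)
  | [] => by simp only [rv, pmul, sem2]; exact Dm_zero κ m P Q hP
  | (c, n) :: ρ => by
    simp only [rv, pmul, sem2_append, sem2_ppre]
    rw [Dm_add κ m P Q hP, Dm_smul κ m P Q hP, Dm_pmul p u F κ m P Q hP S hS ρ, hS n]

theorem Dm_pd (p u : ℝ) (F : List ℝ) (κ m : ℕ) : ∀ (L : List (List (List (List ℤ) × ℕ)))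
    (P : List ℝ[X]), m = P.length + L.length →
    Dm κ m (P ++ L.map (rv p u F)) = sem2 p u (fun t => Dm κ m (P ++ t.map (rw0 [] F))) (pd L)
  | [], P, _ => by simp [pd, sem2, ev2, ev1]
  | ρ :: L, P, h => by
    have hP : P.length < m := by rw [h, List.length_cons]; omega
    rw [pd, List.map_cons]
    refine Dm_pmul p u F κ m P _ hP (pd L) (fun n => ?_) ρ
    have ih := Dm_pd p u F κ m L (P ++ [rw0 [] F n]) (by
      rw [h, List.length_cons, List.length_append, List.length_singleton]; omega)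
    simpa using ih

/-! ### Sorting -/

/-- Signed value. -/
noncomputable def ov (ℓ : List ℕ → ℝ) (s : List ℕ) : Option (Bool × List ℕ) → ℝ
  | none => 0
  | some (false, t) => ℓ (s ++ t)
  | some (true, t) => -ℓ (s ++ t)

theorem ins_ok {ℓ : List ℕ → ℝ} (hℓ : Alt ℓ) (n : ℕ) : ∀ (t s : List ℕ),
    ℓ (s ++ n :: t) = ov ℓ s (ins n t)
  | [], s => by simp [ins, ov]
  | m :: t, s => by
    simp only [ins]
    split_ifs with h1 h2
    · simp [ov]
    · subst h2
      have := hℓ s n n t
      simp only [ov]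
      linarith
    · have ih := ins_ok hℓ n t (s ++ [m])
      rw [hℓ s n m t]
      have e : s ++ m :: n :: t = s ++ [m] ++ n :: t := by simp
      rw [e, ih]
      cases h3 : ins n t with
      | none => simp [ov]
      | some bs =>
        obtain ⟨b, w⟩ := bs
        cases b <;> simp [ov]

theorem nrm_ok {ℓ : List ℕ → ℝ} (hℓ : Alt ℓ) : ∀ (t s : List ℕ),
    ℓ (s ++ t) = ov ℓ s (nrm t)
  | [], s => by simp [nrm, ov]
  | n :: t, s => by
    have ih := nrm_ok hℓ t (s ++ [n])
    have e : s ++ n :: t = s ++ [n] ++ t := by simp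
    rw [e, ih]
    simp only [nrm]
    cases h2 : nrm t with
    | none => simp [ov]
    | some bs =>
      obtain ⟨b, w⟩ := bs
      have h3 := ins_ok hℓ n w s
      have e2 : s ++ [n] ++ w = s ++ n :: w := by simp
      cases h4 : ins n w with
      | none =>
        rw [h4] at h3
        simp only [ov] at h3
        cases b <;> simp [ov, e2, h3, h4]
      | some bs' =>
        obtain ⟨b', w'⟩ := bs'
        rw [h4] at h3
        cases b <;> cases b' <;> simp only [ov, e2] at h3 ⊢ <;> simp [h3, h4]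

/-- Add a term. -/
def addP (c : List (List ℤ)) (t : List ℕ) : List (List (List ℤ) × List ℕ) →
    List (List (List ℤ) × List ℕ)
  | [] => [(c, t)]
  | (c', t') :: S => if t = t' then (add2 c c', t') :: S else (c', t') :: addP c t S

/-- Normal form. -/
def nfP : List (List (List ℤ) × List ℕ) → List (List (List ℤ) × List ℕ)
  | [] => []
  | (c, t) :: S => match nrm t with
    | none => nfP S
    | some (false, t') => addP c t' (nfP S)
    | some (true, t') => addP (smul2 (-1) c) t' (nfP S)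

theorem addP_ok (p u : ℝ) (ℓ : List ℕ → ℝ) (c : List (List ℤ)) (t : List ℕ) : ∀ S,
    sem2 p u ℓ (addP c t S) = ev2 p u c * ℓ t + sem2 p u ℓ S
  | [] => by simp [addP, sem2]
  | (c', t') :: S => by
    simp only [addP]
    split_ifs with h
    · subst h; simp only [sem2, ev2_add]; ring
    · simp only [sem2, addP_ok p u ℓ c t S]; ring

theorem nfP_ok (p u : ℝ) {ℓ : List ℕ → ℝ} (hℓ : Alt ℓ) : ∀ S,
    sem2 p u ℓ (nfP S) = sem2 p u ℓ S
  | [] => rfl
  | (c, t) :: S => by
    have h := nrm_ok hℓ t []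
    simp only [List.nil_append] at h
    simp only [nfP, sem2]
    cases h1 : nrm t with
    | none =>
      rw [h1] at h
      simp only [ov] at h
      simp only [h, nfP_ok p u hℓ S]
      ring
    | some bs =>
      obtain ⟨b, w⟩ := bs
      rw [h1] at h
      cases b with
      | false =>
        simp only [ov, List.nil_append] at h
        simp only [addP_ok, nfP_ok p u hℓ S, h]
      | true =>
        simp only [ov, List.nil_append] at h
        simp only [addP_ok, nfP_ok p u hℓ S, h, ev2_smul]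
        push_cast
        ring

/-- Conversion of a state, with sign. -/
def cst : St → List (List (List ℤ) × List ℕ)
  | [] => []
  | (c, t) :: S => (smul2 (-1) (cvt 0 0 c), t) :: cst S

theorem cst_ok (p u : ℝ) (ℓ : List ℕ → ℝ) : ∀ S : St, sem2 p u ℓ (cst S) = -sem p u ℓ S
  | [] => by simp [cst, sem2, sem]
  | (c, t) :: S => by
    have ih := cst_ok p u ℓ S
    simp only [cst, sem2, ev2_smul, cvt_ok, ih]
    simp only [sem, List.map_cons, List.sum_cons, ev]
    push_cast
    ring

/-- All coefficients zero. -/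
def zzP : List (List (List ℤ) × List ℕ) → Bool
  | [] => true
  | (c, _) :: S => zz2 c && zzP S

theorem zzP_ok (p u : ℝ) (ℓ : List ℕ → ℝ) : ∀ S, zzP S = true → sem2 p u ℓ S = 0
  | [], _ => rfl
  | (c, t) :: S, h => by
    simp only [zzP, Bool.and_eq_true] at h
    simp only [sem2, ev2_zz c h.1, zzP_ok p u ℓ S h.2]
    simp

/-- All tuples have length `m`. -/
def lenP (m : ℕ) : List (List (List ℤ) × List ℕ) → Bool
  | [] => true
  | (_, t) :: S => decide (t.length = m) && lenP m S

theorem sem2_congr (p u : ℝ) {ℓ ℓ' : List ℕ → ℝ} (m : ℕ)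
    (h : ∀ t : List ℕ, t.length = m → ℓ t = ℓ' t) : ∀ S, lenP m S = true →
    sem2 p u ℓ S = sem2 p u ℓ' S
  | [], _ => rfl
  | (c, t) :: S, hS => by
    simp only [lenP, Bool.and_eq_true, decide_eq_true_eq] at hS
    simp only [sem2, h t hS.1, sem2_congr p u m h S hS.2]

/-! ### The check -/

theorem chk3 : zzP (nfP (pd [r0, nfR r1, r2] ++ cst om3)) = true := by decide +kernel

theorem chk4 : zzP (nfP (pd [r0, nfR r1, r2, r3] ++ cst om4)) = true := by decide +kernel

theorem len3 : lenP 3 (pd [r0, nfR r1, r2]) = true := by decide +kernel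

theorem len4 : lenP 4 (pd [r0, nfR r1, r2, r3]) = true := by decide +kernel

theorem val_Dm (F : List ℝ) (κ : ℕ) (t : List ℕ) :
    val [] F κ t = Dm κ t.length (t.map (rw0 [] F)) := by
  unfold val Dm
  congr 1
  ext i j
  rw [Matrix.of_apply, Matrix.of_apply, List.getD_eq_getElem _ _ (by simp)]
  simp

theorem row_of (hv : ValAltSt) : RowSt := by
  intro F p u κ
  constructor
  · have h1 : sol F (1 + u + p) (1 + u) 3 κ = Dm κ 3 ([] ++ [r0, nfR r1, r2].map (rv p u F)) := by
      unfold sol Dm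
      congr 1
      ext i j
      fin_cases i
      · simp [row0]
      · simp [row1]
      · simp [row2]
    rw [h1, Dm_pd p u F κ 3 [r0, nfR r1, r2] [] rfl]
    simp only [List.nil_append]
    rw [sem2_congr p u 3 (ℓ' := val [] F κ) (fun t ht => by rw [val_Dm, ht]) _ len3]
    have h2 := zzP_ok p u (val [] F κ) _ chk3
    rw [nfP_ok p u (hv [] F κ), sem2_append, cst_ok] at h2
    linarith
  · have h1 : sol F (1 + u + p) (1 + u) 4 κ
        = Dm κ 4 ([] ++ [r0, nfR r1, r2, r3].map (rv p u F)) := by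
      unfold sol Dm
      congr 1
      ext i j
      fin_cases i
      · simp [row0]
      · simp [row1]
      · simp [row2]
      · simp [row3]
    rw [h1, Dm_pd p u F κ 4 [r0, nfR r1, r2, r3] [] rfl]
    simp only [List.nil_append]
    rw [sem2_congr p u 4 (ℓ' := val [] F κ) (fun t ht => by rw [val_Dm, ht]) _ len4]
    have h2 := zzP_ok p u (val [] F κ) _ chk4
    rw [nfP_ok p u (hv [] F κ), sem2_append, cst_ok] at h2
    linarith

end Pool.Agent.H37.O4
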